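import Pool.Agent.H33.Vol3

set_option autoImplicit false

namespace Pool.Agent.Results.MP_81f94f_an.Neg

open MeasureTheory Set Filter Topology

/-- `cpow mul a n` is the power of `a` with exponent `n + 1` for the product `mul`. -/
def cpow {α : Type} (mul : α → α → α) (a : α) : ℕ → α
  | 0 => a
  | n + 1 => mul (cpow mul a n) a

/-- Volterra convolution of functions. -/
noncomputable def fconv (f g : ℝ → ℂ) (t : ℝ) : ℂ := ∫ s in (0 : ℝ)..t, f (t - s) * g s

/-- Truncated convolution of complex Borel measures: the image of the product measure under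
addition, restricted to `(0,1)`. -/
noncomputable def mconv (μ ν : ComplexMeasure ℝ) : ComplexMeasure ℝ :=
  ((μ.prod ν (ContinuousLinearMap.mul ℝ ℂ)).map fun p : ℝ × ℝ => p.1 + p.2).restrict (Ioo 0 1)

lemma cpow_eq {α : Type} (mul : α → α → α) (a : α) :
    ∀ n, cpow mul a n = Pool.Agent.H33.Vol.pw mul a n
  | 0 => rfl
  | n + 1 => congrArg (fun x => mul x a) (cpow_eq mul a n)

theorem result : ∃ ω : ℕ → ℝ, (∀ n, 0 < ω n) ∧ (∀ m n, ω (m + n) ≤ ω m * ω n) ∧
    Tendsto (fun n : ℕ => ω n ^ (1 / (n : ℝ))) atTop (𝓝 0) ∧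
    (∀ m n : ℕ, 1 ≤ m → m ≤ n → ω n ^ (1 / (n : ℝ)) ≤ ω m ^ (1 / (m : ℝ))) ∧
    (¬ ∃ f : ℝ → ℂ, IntegrableOn f (Icc 0 1) ∧
      ∀ n, ∫ t in (0 : ℝ)..1, ‖cpow fconv f n t‖ = ω (n + 1)) ∧
    (¬ ∃ a : ComplexMeasure ℝ, a.restrict (Ioo 0 1) = a ∧
      ∀ n, (VectorMeasure.variation (cpow mconv a n) univ).toReal = ω (n + 1)) := by
  open Pool.Agent.H33.Vol in
  have e : ∀ n : ℕ, 1 ≤ n → (rr n ^ n) ^ (1 / (n : ℝ)) = rr n := fun n hn => by
    rw [one_div, Real.pow_rpow_inv_natCast (rr_pos n).le (by omega)]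
  open Pool.Agent.H33.Vol in
  refine ⟨fun n => rr n ^ n, fun n => pow_pos (rr_pos n) n, fun m n => ?_, ?_,
    fun m n h1 h2 => ?_, ?_, ?_⟩
  · beta_reduce
    rw [pow_add]
    exact mul_le_mul (pow_le_pow_left₀ (rr_pos _).le (rr_anti (Nat.le_add_right m n)) m)
      (pow_le_pow_left₀ (rr_pos _).le (rr_anti (Nat.le_add_left n m)) n)
      (pow_pos (rr_pos _) _).le (pow_pos (rr_pos _) _).le
  · refine rr_lim.congr' ?_
    filter_upwards [eventually_ge_atTop 1] with n hn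
    exact (e n hn).symm
  · rw [e m h1, e n (h1.trans h2)]
    exact rr_anti h2
  · rintro ⟨f, h1, h2⟩
    refine no_fun (h1.mono_set Ioo_subset_Icc_self) fun n => ?_
    have := h2 n
    rw [cpow_eq] at this
    exact this
  · rintro ⟨a, h1, h2⟩
    refine no_meas (on_of h1) fun n => ?_
    have := h2 n
    rw [cpow_eq] at this
    exact this

end Pool.Agent.Results.MP_81f94f_an.Neg
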